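import Pool.Agent.W873.RS.Stm

set_option autoImplicit false

open MeasureTheory ProbabilityTheory Polynomial Filter Topology
open scoped ENNReal

namespace Pool.Agent.W236.RS.JM

open Pool.Agent.W873.RS

theorem main : JM := by
  intro s A σ c h
  refine ⟨?_, ?_⟩
  · have e : (Function.uncurry
        (fun (z : (i : Fin s) → A i → ℝ) (x : ℝ) => (total A σ c h z).eval x)) =
        fun p : ((i : Fin s) → A i → ℝ) × ℝ => h.eval p.2 +
          ∑ i, c i * (∑ j : A i, (σ i j * p.1 i j) * p.2 ^ (j : ℕ)) ^ 2 := by
      funext p
      simp only [Function.uncurry, total, lin, eval_add, eval_finsetSum, eval_mul, eval_pow,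
        eval_C, eval_X]
    rw [e]
    refine (h.continuous.measurable.comp measurable_snd).add ?_
    refine Finset.measurable_sum _ fun i _ => ?_
    refine Measurable.const_mul (Measurable.pow_const ?_ 2) _
    refine Finset.measurable_sum _ fun j _ => ?_
    refine Measurable.mul (Measurable.const_mul ?_ _) (measurable_snd.pow_const _)
    exact (measurable_pi_apply j).comp ((measurable_pi_apply i).comp measurable_fst)
  · intro A σ
    have e : (Function.uncurry (fun (z : A → ℝ) (x : ℝ) => (lin A σ z).eval x)) =
        fun p : (A → ℝ) × ℝ => ∑ j : A, (σ j * p.1 j) * p.2 ^ (j : ℕ) := by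
      funext p
      simp only [Function.uncurry, lin, eval_finsetSum, eval_mul, eval_pow, eval_C, eval_X]
    rw [e]
    refine Finset.measurable_sum _ fun j _ => ?_
    refine Measurable.mul (Measurable.const_mul ?_ _) (measurable_snd.pow_const _)
    exact (measurable_pi_apply j).comp measurable_fst

end Pool.Agent.W236.RS.JM
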